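import Pool.Agent.Helper43.CR.Defs

/-!
CR-10: an aperiodic smooth action of a countable group has orbit equivalence relation `T × ℕ`.
-/

set_option autoImplicit false

open Set Topology Filter TopologicalSpace

namespace Pool.Agent.Helper88.CR

open Classical in
/-- An aperiodic smooth action of a countable group: the orbit equivalence relation is a product
`T × ℕ`. -/
theorem smooth_product (Γ V : Type) [Group Γ] [Countable Γ] [MeasurableSpace V]
    [StandardBorelSpace V] [MulAction Γ V] (hm : ∀ g : Γ, Measurable (fun x : V => g • x))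
    (hinf : ∀ x : V, (MulAction.orbit Γ x).Infinite) (T : Set V) (hT : MeasurableSet T)
    (hT1 : ∀ x : V, ∃! t, t ∈ T ∧ t ∈ MulAction.orbit Γ x) :
    ∃ e : (T × ℕ) ≃ᵐ V, ∀ p q, (e p ∈ MulAction.orbit Γ (e q) ↔ p.1 = q.1) := by
  obtain ⟨γ, hγ⟩ := exists_surjective_nat Γ
  -- the indices of new points
  let J : V → ℕ → Prop := fun t k => ∀ j < k, γ k • t ≠ γ j • t
  have hJ0 : ∀ (t : V) (g : Γ), ∃ k, J t k ∧ γ k • t = g • t := by
    intro t g
    have hex : ∃ k, γ k • t = g • t := by
      obtain ⟨k, hk⟩ := hγ g
      exact ⟨k, by rw [hk]⟩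
    refine ⟨Nat.find hex, ?_, Nat.find_spec hex⟩
    intro j hj h
    exact Nat.find_min hex hj (h ▸ Nat.find_spec hex)
  have hJinj : ∀ (t : V) (k k' : ℕ), J t k → J t k' → γ k • t = γ k' • t → k = k' := by
    intro t k k' hk hk' h
    rcases lt_trichotomy k k' with hlt | heq | hlt
    · exact absurd h.symm (hk' k hlt)
    · exact heq
    · exact absurd h (hk k' hlt)
  have hJinf : ∀ t, (setOf (J t)).Infinite := by
    intro t hfin
    apply hinf t
    apply (hfin.image (fun k => γ k • t)).subset
    rintro _ ⟨g, rfl⟩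
    obtain ⟨k, hk, hk'⟩ := hJ0 t g
    exact ⟨k, hk, hk'⟩
  have hJm : ∀ k, MeasurableSet {t | J t k} := by
    intro k
    have : {t | J t k} = ⋂ j : ℕ, ⋂ (_ : j < k), {t | γ k • t = γ j • t}ᶜ := by
      ext t
      simp [J]
    rw [this]
    exact MeasurableSet.iInter fun j => MeasurableSet.iInter fun _ =>
      (measurableSet_eq_fun (hm (γ k)) (hm (γ j))).compl
  have hcm : ∀ k, Measurable (fun t => Nat.count (J t) k) := by
    intro k
    induction k with
    | zero => simpa using measurable_const
    | succ k ih =>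
      have : (fun t => Nat.count (J t) (k + 1)) =
          fun t => Nat.count (J t) k + (if J t k then 1 else 0) := by
        funext t
        rw [Nat.count_succ]
      rw [this]
      exact ih.add (Measurable.ite (hJm k) measurable_const measurable_const)
  have hnm : ∀ i, Measurable (fun t => Nat.nth (J t) i) := by
    intro i
    refine measurable_to_countable' fun k => ?_
    have : (fun t => Nat.nth (J t) i) ⁻¹' {k} = {t | J t k} ∩ (fun t => Nat.count (J t) k) ⁻¹' {i} := by
      ext t
      simp only [mem_preimage, mem_singleton_iff, mem_inter_iff, mem_setOf_eq]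
      constructor
      · rintro rfl
        exact ⟨Nat.nth_mem_of_infinite (hJinf t) i, Nat.count_nth_of_infinite (hJinf t) i⟩
      · rintro ⟨h1, rfl⟩
        exact Nat.nth_count h1
    rw [this]
    exact (hJm k).inter (hcm k (measurableSet_singleton i))
  let f : T × ℕ → V := fun p => γ (Nat.nth (J p.1) p.2) • (p.1 : V)
  have hfm : Measurable f := by
    have h1 : Measurable (fun q : ℕ × V => γ q.1 • q.2) := by
      exact measurable_from_prod_countable_right fun n => hm (γ n)
    have h2 : Measurable (fun p : T × ℕ => (Nat.nth (J p.1) p.2, (p.1 : V))) := by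
      refine Measurable.prodMk ?_ (measurable_subtype_coe.comp measurable_fst)
      exact measurable_from_prod_countable_left fun i => (hnm i).comp measurable_subtype_coe
    exact h1.comp h2
  have hforb : ∀ p, f p ∈ MulAction.orbit Γ (p.1 : V) := fun p => ⟨_, rfl⟩
  have horb : ∀ p q, f p ∈ MulAction.orbit Γ (f q) → p.1 = q.1 := by
    intro p q h
    obtain ⟨t, _, ht⟩ := hT1 (f q)
    have hp : (p.1 : V) = t := by
      apply ht
      refine ⟨p.1.2, ?_⟩
      have : (p.1 : V) ∈ MulAction.orbit Γ (f p) := MulAction.mem_orbit_symm.1 (hforb p)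
      rw [MulAction.orbit_eq_iff.2 h] at this
      exact this
    have hq : (q.1 : V) = t := by
      apply ht
      exact ⟨q.1.2, MulAction.mem_orbit_symm.1 (hforb q)⟩
    exact Subtype.ext (hp.trans hq.symm)
  have hinj : Function.Injective f := by
    intro p q h
    have h1 : p.1 = q.1 := horb p q (h ▸ MulAction.mem_orbit_self _)
    obtain ⟨p1, i⟩ := p
    obtain ⟨q1, i'⟩ := q
    simp only at h1
    subst h1
    have h2 : Nat.nth (J p1) i = Nat.nth (J p1) i' :=
      hJinj p1 _ _ (Nat.nth_mem_of_infinite (hJinf p1) i) (Nat.nth_mem_of_infinite (hJinf p1) i') h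
    rw [Nat.nth_injective (hJinf p1) h2]
  have hsurj : Function.Surjective f := by
    intro v
    obtain ⟨t, ⟨htT, htv⟩, _⟩ := hT1 v
    obtain ⟨g, hg⟩ := MulAction.mem_orbit_symm.1 htv
    obtain ⟨k, hk, hk'⟩ := hJ0 t g
    refine ⟨(⟨t, htT⟩, Nat.count (J t) k), ?_⟩
    simp only [f]
    rw [Nat.nth_count hk, hk']
    exact hg
  haveI : StandardBorelSpace T := hT.standardBorel
  have hemb : MeasurableEmbedding f := hfm.measurableEmbedding hinj
  refine ⟨{ toEquiv := Equiv.ofBijective f ⟨hinj, hsurj⟩
            measurable_toFun := hfm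
            measurable_invFun := ?_ }, ?_⟩
  · intro s hs
    have : (Equiv.ofBijective f ⟨hinj, hsurj⟩).symm ⁻¹' s = f '' s := by
      rw [← Equiv.image_eq_preimage_symm]
      rfl
    rw [this]
    exact hemb.measurableSet_image.2 hs
  · intro p q
    constructor
    · exact horb p q
    · intro h
      change f p ∈ MulAction.orbit Γ (f q)
      have h1 := hforb p
      have h2 := hforb q
      rw [h] at h1
      rw [← MulAction.orbit_eq_iff.2 h2] at h1
      exact h1

end Pool.Agent.Helper88.CR
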